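import Pool.Agent.P.MP_95bcfc_an.Dehn.Stmt
import Pool.Agent.P.MP_95bcfc_an.EM.Limit
import Pool.Agent.P.MP_95bcfc_an.Conf

set_option autoImplicit false
set_option linter.unusedSectionVars false
set_option linter.deprecated false
set_option linter.style.haveILetI false

open MeasureTheory ProbabilityTheory
open scoped ENNReal

namespace Pool.Agent.P.MP_95bcfc_an.Dehn

open EM

variable {G ι : Type} [Group G] [Countable G] [Fintype ι] [DecidableEq ι] {s : ι → G}

theorem mk_ne_one {L : List (ι × Bool)} (h : FreeGroup.IsReduced L) (h0 : L ≠ []) :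
    FreeGroup.mk L ≠ 1 := fun e => h0 (by
  have := congrArg FreeGroup.toWord e
  rwa [FreeGroup.toWord_mk, h.reduce_eq, FreeGroup.toWord_one] at this)

theorem red_sub {L M : List (ι × Bool)} (h : FreeGroup.IsReduced L) (h' : M <:+: L) :
    FreeGroup.IsReduced M := by
  obtain ⟨A, B, rfl⟩ := h'
  exact List.IsChain.right_of_append (List.IsChain.left_of_append h)

/-- a closed reduced walk contains a closed reduced walk without repeated edges -/
theorem exists_nodup (A : G × ι → Prop) (n : ℕ) : ∀ (L : List (ι × Bool)) (g : G), L.length ≤ n →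
    L ≠ [] → FreeGroup.IsReduced L → FreeGroup.lift s (FreeGroup.mk L) = 1 →
    (∀ e ∈ edges s g L, A e) → ∃ (L' : List (ι × Bool)) (g' : G), L' ≠ [] ∧
      FreeGroup.IsReduced L' ∧ FreeGroup.lift s (FreeGroup.mk L') = 1 ∧
      (∀ e ∈ edges s g' L', A e) ∧ (edges s g' L').Nodup := by
  induction n with
  | zero => intro L g hL h; exact absurd (List.length_eq_zero_iff.1 (Nat.le_zero.1 hL)) h
  | succ n ih =>
    intro L g hL h0 hr h1 hA
    by_cases hn : (edges s g L).Nodup
    · exact ⟨L, g, h0, hr, h1, hA, hn⟩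
    have key : ∀ (M : List (ι × Bool)) (g : G), ¬ (edges s g M).Nodup → ∃ L1 x L2 y L3,
        M = L1 ++ x :: (L2 ++ y :: L3) ∧
        edge s (g * FreeGroup.lift s (FreeGroup.mk L1) * st s x *
          FreeGroup.lift s (FreeGroup.mk L2)) y =
          edge s (g * FreeGroup.lift s (FreeGroup.mk L1)) x := by
      intro M
      induction M with
      | nil => intro g h; simp [edges] at h
      | cons x M ihM =>
        intro g h
        rw [edges, List.nodup_cons, not_and_or, not_not] at h
        rcases h with h | h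
        · obtain ⟨L2, y, L3, rfl, h2, -⟩ := edges_first h
          exact ⟨[], x, L2, y, L3, rfl, by simpa [← FreeGroup.one_eq_mk] using h2⟩
        · obtain ⟨L1, x', L2, y, L3, rfl, h2⟩ := ihM _ h
          refine ⟨x :: L1, x', L2, y, L3, rfl, ?_⟩
          rw [mk_cons, map_mul, ← mul_assoc]
          exact h2
    obtain ⟨L1, x, L2, y, L3, rfl, h2⟩ := key L g hn
    simp only [List.length_append, List.length_cons] at hL
    set g1 := g * FreeGroup.lift s (FreeGroup.mk L1) with hg1
    have hsub : ∀ e ∈ edges s g1 (x :: L2), A e := fun e he => hA e (by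
      rw [edges_append, ← List.cons_append, edges_append]
      exact List.mem_append_right _ (List.mem_append_left _ he))
    rcases edge_eq h2 with h3 | ⟨rfl, h3⟩
    · refine ih (x :: L2) g1 (by simp only [List.length_cons]; omega) (by simp)
        (red_sub hr ⟨L1, y :: L3, by simp⟩) ?_ hsub
      rw [mk_cons, map_mul]
      rw [mul_assoc] at h3
      exact mul_eq_left.1 h3
    · have h4 : L2 ≠ [] := by
        rintro rfl
        have := red_sub hr (M := [x, (x.1, !x.2)]) ⟨L1, L3, by simp⟩
        simp [FreeGroup.IsReduced] at this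
      exact ih L2 (g1 * st s x) (by omega) h4 (red_sub hr ⟨L1 ++ [x], (x.1, !x.2) :: L3, by simp⟩)
        (mul_eq_left.1 h3) fun e he => hsub e (List.mem_cons_of_mem _ he)

variable {I : Type} (o : I) (W : ℕ → Finset (List (ι × Bool)))

variable (s) in
/-- the edge lies on a fully open path without repeated edges that reads a forbidden word -/
def Bad (ω : G × ι → I) (e : G × ι) : Prop :=
  ∃ l, ∃ u ∈ W l, ∃ g, e ∈ edges s g u ∧ (edges s g u).Nodup ∧ ∀ e' ∈ edges s g u, ω e' = o

open Classical in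
variable (s) in
/-- the open edges that are not bad -/
noncomputable def thin (ω : G × ι → I) : G × ι → Bool := fun e => decide (ω e = o ∧ ¬ Bad s o W ω e)

theorem thin_iff {ω : G × ι → I} {e : G × ι} :
    thin s o W ω e = true ↔ ω e = o ∧ ¬ Bad s o W ω e := by simp [thin]

theorem thin_forest (hW : ∀ w : FreeGroup ι, w ≠ 1 → FreeGroup.lift s w = 1 →
    ∃ l, 0 < l ∧ ∃ u ∈ W l, u <:+: w.toWord) (hl : ∀ l, ∀ u ∈ W l, u.length = l)
    (ω : G × ι → I) : IsForest s (thin s o W ω) := by
  intro g w hp h1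
  by_contra hw
  obtain ⟨L, g', h0, hr, h2, hA, hn⟩ := exists_nodup (s := s) (fun e => thin s o W ω e = true) _
    w.toWord g le_rfl (fun e => hw (FreeGroup.toWord_eq_nil_iff.1 e)) FreeGroup.isReduced_toWord
    (by rwa [FreeGroup.mk_toWord]) (openPath_iff.1 hp)
  obtain ⟨l, hl0, u, hu, A, B, hAB⟩ := hW _ (mk_ne_one hr h0) h2
  rw [FreeGroup.toWord_mk, hr.reduce_eq] at hAB
  subst hAB
  rw [edges_append, edges_append] at hA hn
  have hA' : ∀ e ∈ edges s (g' * FreeGroup.lift s (FreeGroup.mk A)) u, thin s o W ω e = true :=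
    fun e he => hA e (List.mem_append_left _ (List.mem_append_right _ he))
  cases u with
  | nil => exact absurd (hl l _ hu) (by simpa using hl0.ne)
  | cons x u =>
    exact ((thin_iff o W).1 (hA' _ List.mem_cons_self)).2 ⟨l, _, hu, _, List.mem_cons_self,
      hn.of_append_left.of_append_right, fun e he => ((thin_iff o W).1 (hA' e he)).1⟩

theorem bad_shift (h : G) {ω : G × ι → I} {e : G × ι} (hb : Bad s o W ω e) :
    Bad s o W (fun p => ω (h⁻¹ * p.1, p.2)) (h * e.1, e.2) := by
  obtain ⟨l, u, hu, g, h1, h2, h3⟩ := hb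
  refine ⟨l, u, hu, h * g, ?_, ?_, ?_⟩ <;> rw [edges_mul]
  · exact List.mem_map_of_mem h1
  · refine h2.map fun a b hab => ?_
    simp only [Prod.mk.injEq, mul_right_inj] at hab
    exact Prod.ext hab.1 hab.2
  · intro e' he'
    obtain ⟨a, ha, rfl⟩ := List.mem_map.1 he'
    simpa using h3 a ha

theorem thin_shift (h : G) (ω : G × ι → I) :
    thin s o W (fun p => ω (h⁻¹ * p.1, p.2)) = shiftCfg h (thin s o W ω) := by
  funext e
  rw [Bool.eq_iff_iff, shiftCfg, thin_iff, thin_iff]
  refine and_congr_right fun _ => not_congr ⟨fun hb => ?_, fun hb => ?_⟩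
  · simpa using bad_shift o W h⁻¹ hb
  · simpa using bad_shift o W h hb

variable (s) in
/-- the start of the path that reads `u` and passes the edge `(1, i)` at step `j` -/
noncomputable def start (u : List (ι × Bool)) (j : ℕ) : G :=
  (match u[j]? with
    | some (i, false) => s i
    | _ => 1) * (FreeGroup.lift s (FreeGroup.mk (u.take j)))⁻¹

theorem bad_start {ω : G × ι → I} {i : ι} (hb : Bad s o W ω (1, i)) :
    ∃ l, ∃ u ∈ W l, ∃ j < u.length, (u[j]?).map Prod.fst = some i ∧
      (edges s (start s u j) u).Nodup ∧ ∀ e' ∈ edges s (start s u j) u, ω e' = o := by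
  obtain ⟨l, u, hu, g, h1, h2, h3⟩ := hb
  obtain ⟨L1, ⟨k, b⟩, L2, rfl, h4, -⟩ := edges_first h1
  have e1 : (L1 ++ (k, b) :: L2)[L1.length]? = some (k, b) := by simp
  have e2 : start s (L1 ++ (k, b) :: L2) L1.length = g := by
    rw [start, e1, List.take_left, mul_inv_eq_iff_eq_mul]
    cases b
    · simp only [edge, Bool.false_eq_true, if_false, Prod.mk.injEq] at h4
      exact (mul_inv_eq_one.1 h4.1).symm
    · simp only [edge, if_true, Prod.mk.injEq] at h4
      exact h4.1.symm
  refine ⟨l, _, hu, L1.length, by simp, ?_, e2 ▸ h2, e2 ▸ h3⟩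
  rw [e1]
  cases b <;> simp only [edge, Bool.false_eq_true, if_false, if_true, Prod.mk.injEq] at h4 <;>
    simp [h4.2]

theorem length_edges (g : G) (L : List (ι × Bool)) : (edges s g L).length = L.length := by
  induction L generalizing g with
  | nil => rfl
  | cons x L ih => simp [edges, ih]

variable [Fintype I] [Nonempty I] [MeasurableSpace I]
  [DiscreteMeasurableSpace I]

theorem meas_open (e : G × ι) : MeasurableSet {ω : Conf G ι I | ω e = o} :=
  Conf.meas_eval e (measurableSet_singleton o)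

theorem meas_bad (e : G × ι) : MeasurableSet {ω : Conf G ι I | Bad s o W ω e} := by
  simp only [Bad, Set.setOf_exists, Set.setOf_and]
  refine MeasurableSet.iUnion fun l => MeasurableSet.iUnion fun u => (MeasurableSet.const _).inter
    (MeasurableSet.iUnion fun g => (MeasurableSet.const _).inter ((MeasurableSet.const _).inter ?_))
  simp only [Set.setOf_forall]
  exact MeasurableSet.iInter fun e' => MeasurableSet.iInter fun _ => meas_open o e'

theorem meas_thin : Measurable (fun ω : Conf G ι I => thin s o W ω) := by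
  refine measurable_pi_lambda _ fun e => measurable_to_bool ?_
  have : (fun ω : Conf G ι I => thin s o W ω e) ⁻¹' {true} =
      {ω : Conf G ι I | ω e = o} ∩ {ω : Conf G ι I | Bad s o W ω e}ᶜ := by
    ext ω
    exact thin_iff o W
  rw [this]
  exact (meas_open o e).inter (meas_bad o W e).compl

theorem open_eq (e : G × ι) : Conf.μ G ι I {ω | ω e = o} = (Fintype.card I : ℝ≥0∞)⁻¹ := by
  classical
  have h2 := Measure.infinitePi_pi (fun _ : G × ι => uniformOn (Set.univ : Set I))
    (s := {e}) (t := fun _ => {o}) fun _ _ => measurableSet_singleton _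
  simp only [uniformOn_univ, Measure.count_singleton, one_div, Finset.prod_singleton] at h2
  rw [← h2]
  congr 1
  ext ω
  simp only [Finset.coe_singleton, Set.singleton_pi]
  rfl

theorem bad_le (hl : ∀ l, ∀ u ∈ W l, u.length = l) :
    ∑ i, Conf.μ G ι I {ω | Bad s o W ω (1, i)} ≤
      ∑' l : ℕ, ((W l).card * l : ℕ) * ((Fintype.card I : ℝ≥0∞)⁻¹) ^ l := by
  classical
  let T : ℕ → ι → Finset (List (ι × Bool) × ℕ) := fun l i =>
    (W l ×ˢ Finset.range l).filter fun a => (a.1[a.2]?).map Prod.fst = some i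
  have h1 : ∀ i, Conf.μ G ι I {ω | Bad s o W ω (1, i)} ≤
      ∑' l : ℕ, ((T l i).card : ℝ≥0∞) * ((Fintype.card I : ℝ≥0∞)⁻¹) ^ l := by
    intro i
    have h2 : {ω : Conf G ι I | Bad s o W ω (1, i)} ⊆ ⋃ l, ⋃ a ∈ T l i,
        {ω | (edges s (start s a.1 a.2) a.1).Nodup ∧
          ∀ e' ∈ edges s (start s a.1 a.2) a.1, ω e' = o} := by
      intro ω hω
      obtain ⟨l, u, hu, j, hj, h3, h4⟩ := bad_start o W hω
      refine Set.mem_iUnion.2 ⟨l, Set.mem_biUnion (x := (u, j)) ?_ h4⟩
      simp only [T, Finset.mem_coe, Finset.mem_filter, Finset.mem_product, Finset.mem_range]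
      exact ⟨⟨hu, hl l u hu ▸ hj⟩, h3⟩
    refine (measure_mono h2).trans ((measure_iUnion_le _).trans (ENNReal.tsum_le_tsum fun l => ?_))
    refine (measure_biUnion_finset_le _ _).trans ((Finset.sum_le_card_nsmul _ _ _
      fun a ha => ?_).trans (nsmul_eq_mul _ _).le)
    by_cases hn : (edges s (start s a.1 a.2) a.1).Nodup
    · have h5 := cyl_le (G := G) (D := ι) (I := I)
        ((edges s (start s a.1 a.2) a.1).map fun e => (e, o)) (by simpa [Function.comp_def] using hn)
      rw [List.length_map, length_edges,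
        hl l _ (Finset.mem_product.1 (Finset.mem_filter.1 ha).1).1] at h5
      refine (measure_mono fun ω hω => ?_).trans h5
      intro c hc
      obtain ⟨e, he, rfl⟩ := List.mem_map.1 hc
      exact hω.2 e he
    · simp [hn]
  refine (Finset.sum_le_sum fun i _ => h1 i).trans ?_
  rw [← Summable.tsum_finsetSum fun _ _ => ENNReal.summable]
  refine ENNReal.tsum_le_tsum fun l => ?_
  rw [← Finset.sum_mul]
  refine mul_le_mul_left ?_ _
  rw [← Nat.cast_sum, Nat.cast_le, ← Finset.card_biUnion]
  · refine (Finset.card_le_card (t := W l ×ˢ Finset.range l) ?_).trans (by simp)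
    exact Finset.biUnion_subset.2 fun i _ => Finset.filter_subset _ _
  · intro i _ j _ hij
    refine Finset.disjoint_left.2 fun a ha hb => hij ?_
    exact Option.some.inj ((Finset.mem_filter.1 ha).2.symm.trans (Finset.mem_filter.1 hb).2)

theorem deg_ge (hl : ∀ l, ∀ u ∈ W l, u.length = l)
    (hc : ∀ l, (W l).card * 4 ^ l ≤ Fintype.card I ^ l) :
    (Fintype.card ι : ℝ) / Fintype.card I - 2 ≤ ∑ i, ((Conf.μ G ι I).map
      fun ω : Conf G ι I => thin s o W ω).real {ω | ω (1, i) = true} := by
  have hI : (Fintype.card I : ℝ≥0∞) ≠ 0 := by simp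
  have h1 : ∑ i, Conf.μ G ι I {ω | Bad s o W ω (1, i)} ≤ 2 := by
    refine (bad_le o W hl).trans (le_of_le_of_eq (ENNReal.tsum_le_tsum fun l => ?_)
      ENNReal.tsum_geometric_two)
    have h2 : (W l).card * l * 2 ^ l ≤ Fintype.card I ^ l := by
      refine le_trans ?_ (hc l)
      rw [mul_assoc, show 4 ^ l = 2 ^ l * 2 ^ l from mul_pow 2 2 l]
      exact Nat.mul_le_mul_left _ (Nat.mul_le_mul_right _ Nat.lt_two_pow_self.le)
    have h3 : (((W l).card * l : ℕ) : ℝ≥0∞) * 2 ^ l ≤ (Fintype.card I : ℝ≥0∞) ^ l := by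
      exact_mod_cast h2
    rw [← ENNReal.inv_pow, ← ENNReal.inv_pow, ← div_eq_mul_inv,
      ENNReal.div_le_iff (pow_ne_zero _ hI) (by simp), ← ENNReal.div_eq_inv_mul,
      ENNReal.le_div_iff_mul_le (by simp) (by simp)]
    exact h3
  have h4 : ∑ i, (Conf.μ G ι I).real {ω | Bad s o W ω (1, i)} ≤ 2 := by
    simp only [Measure.real]
    rw [← ENNReal.toReal_sum fun _ _ => measure_ne_top _ _]
    exact ENNReal.toReal_le_of_le_ofReal zero_le_two (by simpa using h1)
  have h5 : ∀ i, (Fintype.card I : ℝ)⁻¹ - (Conf.μ G ι I).real {ω | Bad s o W ω (1, i)} ≤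
      ((Conf.μ G ι I).map fun ω : Conf G ι I => thin s o W ω).real {ω | ω (1, i) = true} := by
    intro i
    rw [map_measureReal_apply (meas_thin o W) (meas_edge _), sub_le_iff_le_add]
    refine le_trans (le_of_eq ?_) ((measureReal_mono (s₁ := {ω : Conf G ι I | ω (1, i) = o})
      fun ω hω => ?_).trans (measureReal_union_le _ _))
    · rw [Measure.real, open_eq]
      simp
    · by_cases hb : Bad s o W ω (1, i)
      · exact Or.inr hb
      · exact Or.inl ((thin_iff o W).2 ⟨hω, hb⟩)
  refine le_trans ?_ (Finset.sum_le_sum fun i _ => h5 i)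
  rw [Finset.sum_sub_distrib, Finset.sum_const, Finset.card_univ, nsmul_eq_mul, div_eq_mul_inv]
  linarith

theorem wide_of_sparse (hG : SparseDehn G) : WideForests G := by
  obtain ⟨θ0, hθ0, hG⟩ := hG
  intro C
  set θ := max θ0 0 with hθd
  have hθ : θ < 1 / 2 := max_lt hθ0 (by norm_num)
  have hθ' : 0 ≤ θ := le_max_right _ _
  have ht := (tendsto_rpow_atTop (y := 1 / 2 - θ) (by linarith)).comp
    (tendsto_natCast_atTop_atTop (R := ℝ))
  obtain ⟨N, hN⟩ := Filter.eventually_atTop.1 (ht.eventually_gt_atTop (10 * (|C| + 3)))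
  obtain ⟨n, hn, s, W, hW, hD⟩ := hG (max N 1)
  have hn1 : (1 : ℝ) ≤ n := by exact_mod_cast (le_max_right N 1).trans hn
  have hn2 : 10 * (|C| + 3) < (n : ℝ) ^ (1 / 2 - θ) := hN n ((le_max_left N 1).trans hn)
  set x : ℝ := (2 * n : ℝ) ^ θ with hx
  have hx1 : 1 ≤ x := Real.one_le_rpow (by linarith) hθ'
  set k := ⌈4 * x⌉₊ with hk
  have hk1 : 4 * x ≤ k := Nat.le_ceil _
  have hk2 : (k : ℝ) ≤ 5 * x := (Nat.ceil_lt_add_one (by linarith)).le.trans (by linarith)
  have hk0 : 0 < k := Nat.ceil_pos.2 (by linarith)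
  letI : MeasurableSpace (Fin k) := ⊤
  haveI : DiscreteMeasurableSpace (Fin k) := ⟨fun _ => trivial⟩
  haveI : Nonempty (Fin k) := ⟨⟨0, hk0⟩⟩
  have hl : ∀ l, ∀ u ∈ W l, u.length = l := fun l => (hW l).2
  have hm := meas_thin (s := s) (⟨0, hk0⟩ : Fin k) W
  refine ⟨n, s, (Conf.μ G (Fin n) (Fin k)).map
    fun ω : Conf G (Fin n) (Fin k) => thin s ⟨0, hk0⟩ W ω,
    Measure.isProbabilityMeasure_map hm.aemeasurable, fun g => ?_, ?_, ?_⟩
  · rw [Measure.map_map (meas_shift g) hm]
    conv_rhs => rw [← (measurePreserving_smul g (Conf.μ G (Fin n) (Fin k))).map_eq,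
      Measure.map_map hm (measurable_const_smul g)]
    congr 1
    funext ω
    exact (thin_shift _ W g ω).symm
  · exact (ae_map_iff hm.aemeasurable meas_forest).2
      (Filter.Eventually.of_forall (thin_forest _ W hD hl))
  · have h1 := deg_ge (s := s) (⟨0, hk0⟩ : Fin k) W hl fun l => by
      have h2 : ((W l).card : ℝ) ≤ x ^ l := by
        rw [hx, ← Real.rpow_natCast, ← Real.rpow_mul (by linarith)]
        exact (hW l).1.trans (Real.rpow_le_rpow_of_exponent_le (by linarith)
          (mul_le_mul_of_nonneg_right (le_max_left _ _) (Nat.cast_nonneg l)))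
      have h3 : ((W l).card : ℝ) * 4 ^ l ≤ (k : ℝ) ^ l := by
        refine le_trans ?_ (pow_le_pow_left₀ (by linarith) hk1 l)
        rw [mul_pow, mul_comm]
        exact mul_le_mul_of_nonneg_left h2 (by positivity)
      rw [Fintype.card_fin]
      exact_mod_cast h3
    simp only [Fintype.card_fin] at h1
    set r : ℝ := Real.sqrt n with hr
    have hr1 : 1 ≤ r := Real.one_le_sqrt.2 hn1
    have hr2 : r * r = n := Real.mul_self_sqrt (by linarith)
    have hx2 : x * (n : ℝ) ^ (1 / 2 - θ) ≤ 2 * r := by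
      rw [hx, Real.mul_rpow zero_le_two (by linarith), mul_assoc, ← Real.rpow_add (by linarith),
        hr, Real.sqrt_eq_rpow, add_sub_cancel]
      refine mul_le_mul_of_nonneg_right ?_ (by positivity)
      simpa using Real.rpow_le_rpow_of_exponent_le (x := 2) (by norm_num) (by linarith : θ ≤ 1)
    have hC := abs_nonneg C
    have h4 : (|C| + 3) * r ≤ n / k := by
      rw [le_div_iff₀ (by exact_mod_cast hk0), ← hr2]
      have h5 : (|C| + 3) * k ≤ r := by nlinarith
      nlinarith
    have h6 : (|C| + 1) * r ≤ n / k - 2 := by nlinarith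
    refine lt_of_lt_of_le ?_ (pow_le_pow_left₀ (by positivity) (h6.trans h1) 2)
    rw [mul_pow, sq r, hr2]
    have h7 : C < (|C| + 1) ^ 2 := by nlinarith [le_abs_self C]
    exact mul_lt_mul_of_pos_right h7 (by linarith)

end Pool.Agent.P.MP_95bcfc_an.Dehn
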