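import Pool.Agent.P.MP_95bcfc_an.Dehn.Forest

set_option autoImplicit false
set_option linter.unusedSectionVars false

open FreeGroup

namespace Pool.Agent.P.MP_95bcfc_an.Dehn

section Words

variable {β : Type}

/-- powers of a word -/
def pw (r : ℕ) (A : List β) : List β := (List.replicate r A).flatten

theorem pw_add (a b : ℕ) (A : List β) : pw (a + b) A = pw a A ++ pw b A := by
  rw [pw, List.replicate_add, List.flatten_append, pw, pw]

theorem length_pw (r : ℕ) (A : List β) : (pw r A).length = r * A.length := by simp [pw]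

/-- the word contains no `r`-th power -/
def Free (r : ℕ) (X : List β) : Prop := ∀ A, A ≠ [] → ¬ pw r A <:+: X

theorem Free.sub {r : ℕ} {X Y : List β} (h : Free r X) (h' : Y <:+: X) : Free r Y :=
  fun A a b => h A a (b.trans h')

theorem Free.append {a b : ℕ} {X Y : List β} (h : Free a X) (h' : Free b Y) :
    Free (a + b) (X ++ Y) := fun A hA c => by
  rw [pw_add] at c
  rcases List.infix_append_iff.1 c with c | c | ⟨l1, l2, e, c1, c2⟩
  · exact h A hA ((List.prefix_append _ _).isInfix.trans c)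
  · exact h' A hA ((List.suffix_append _ _).isInfix.trans c)
  · rcases List.append_eq_append_iff.1 e with ⟨m, rfl, -⟩ | ⟨m, -, rfl⟩
    · exact h A hA ((List.prefix_append _ _).isInfix.trans c1.isInfix)
    · exact h' A hA ((List.suffix_append _ _).isInfix.trans c2.isInfix)

theorem free_nil {r : ℕ} (hr : 0 < r) : Free r ([] : List β) := fun A hA c => by
  have := c.length_le
  rw [length_pw] at this
  exact (Nat.mul_pos hr (List.length_pos_iff.2 hA)).not_ge this

open Classical in
/-- all words of a given length -/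
noncomputable def Ls (β : Type) [Fintype β] (m : ℕ) : Finset (List β) :=
  Finset.univ.image fun f : Fin m → β => List.ofFn f

theorem mem_Ls [Fintype β] {m : ℕ} {u : List β} : u ∈ Ls β m ↔ u.length = m := by
  simp only [Ls, Finset.mem_image, Finset.mem_univ, true_and]
  exact ⟨fun ⟨f, h⟩ => h ▸ List.length_ofFn, fun h => h ▸ ⟨u.get, List.ofFn_get u⟩⟩

theorem card_Ls [Fintype β] (m : ℕ) : (Ls β m).card ≤ Fintype.card β ^ m := by
  classical
  exact Finset.card_image_le.trans (by simp)

theorem pre {α : Type} {R : α → List β → Prop} {Sm : List β → Prop}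
    (hS : ∀ X Y, Sm X → Y <:+: X → Sm Y) (h0 : Sm []) (hR : ∀ x B, R x B → Sm B) {w : List α}
    {Bs : List (List β)} (h : List.Forall₂ R w Bs) : ∀ T, T <+: Bs.flatten →
      ∃ u Cs t, u <+: w ∧ List.Forall₂ R u Cs ∧ Sm t ∧ T = Cs.flatten ++ t := by
  induction h with
  | nil => exact fun T hT => ⟨[], [], [], List.nil_prefix, .nil, h0, by simpa using hT⟩
  | @cons x B w Bs hx _ ih =>
    intro T hT
    rcases List.prefix_or_prefix_of_prefix hT (List.prefix_append B Bs.flatten) with c | ⟨T', rfl⟩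
    · exact ⟨[], [], T, List.nil_prefix, .nil, hS _ _ (hR _ _ hx) c.isInfix, rfl⟩
    · obtain ⟨u, Cs, t, a1, a2, a3, rfl⟩ := ih T' ((List.prefix_append_right_inj B).1 hT)
      exact ⟨x :: u, B :: Cs, t, (List.prefix_cons_inj x).2 a1, .cons hx a2, a3, by simp⟩

theorem inf {α : Type} {R : α → List β → Prop} {Sm : List β → Prop}
    (hS : ∀ X Y, Sm X → Y <:+: X → Sm Y) (h0 : Sm []) (hR : ∀ x B, R x B → Sm B) {w : List α}
    {Bs : List (List β)} (h : List.Forall₂ R w Bs) (T : List β) : ∀ g, Sm g →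
      T <:+: g ++ Bs.flatten → ∃ a u Cs t, u <:+: w ∧ List.Forall₂ R u Cs ∧ Sm a ∧ Sm t ∧
        T = a ++ (Cs.flatten ++ t) := by
  induction h with
  | nil => exact fun g hg hT => ⟨T, [], [], [], List.nil_infix, .nil,
      hS _ _ hg (by simpa using hT), h0, by simp⟩
  | @cons x B w Bs hx hw ih =>
    intro g hg hT
    rcases List.infix_append_iff.1 hT with c | c | ⟨l1, l2, rfl, c1, c2⟩
    · exact ⟨T, [], [], [], List.nil_infix, .nil, hS _ _ hg c, h0, by simp⟩
    · obtain ⟨a, u, Cs, t, a1, a2⟩ := ih B (hR _ _ hx) c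
      exact ⟨a, u, Cs, t, a1.trans (List.suffix_cons x w).isInfix, a2⟩
    · obtain ⟨u, Cs, t, a1, a2, a3, rfl⟩ := pre hS h0 hR (.cons hx hw) l2 c2
      exact ⟨l1, u, Cs, t, a1.isInfix, a2, hS _ _ hg c1.isInfix, a3, rfl⟩

end Words

/-- letters -/
abbrev Lt : Type := Fin 2 × Bool

open Classical in
/-- positive words without sixth powers -/
noncomputable def Fr (L : ℕ) : Finset (List Lt) :=
  (Ls Lt L).filter fun w => Free 6 w ∧ ∀ x ∈ w, x.2 = true

theorem mem_Fr {L : ℕ} {w : List Lt} :
    w ∈ Fr L ↔ w.length = L ∧ Free 6 w ∧ ∀ x ∈ w, x.2 = true := by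
  simp only [Fr, Finset.mem_filter, mem_Ls]

theorem fr_step (L : ℕ) : 2 * (Fr L).card ≤ (Fr (L + 1)).card +
    ∑ p ∈ Finset.range ((L + 1) / 5), (Fr (L + 1 - 5 * (p + 1))).card := by
  have h1 : (Finset.univ ×ˢ Fr L).image (fun q : Fin 2 × List Lt => (q.1, true) :: q.2) ⊆
      Fr (L + 1) ∪ (Finset.range ((L + 1) / 5)).biUnion fun p =>
        (Fr (L + 1 - 5 * (p + 1))).image fun v => pw 5 (v.take (p + 1)) ++ v := by
    intro _ h
    obtain ⟨⟨c, w⟩, h', rfl⟩ := Finset.mem_image.1 h
    obtain ⟨a1, a2, a3⟩ := mem_Fr.1 (Finset.mem_product.1 h').2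
    dsimp only at a1 a2 a3 ⊢
    have a4 : ∀ x ∈ (c, true) :: w, x.2 = true := List.forall_mem_cons.2 ⟨rfl, a3⟩
    by_cases hf : Free 6 ((c, true) :: w)
    · exact Finset.mem_union_left _ (mem_Fr.2 ⟨by simp [a1], hf, a4⟩)
    simp only [Free, not_forall, not_not] at hf
    obtain ⟨A, hA, hf⟩ := hf
    obtain ⟨t, ht⟩ := (List.infix_cons_iff.1 hf).resolve_right (a2 A hA)
    have e : pw 5 A ++ (A ++ t) = (c, true) :: w := by
      rw [← ht, show 6 = 5 + 1 from rfl, pw_add]
      simp [pw]
    have l1 := congrArg List.length e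
    simp only [List.length_append, length_pw, List.length_cons, a1] at l1
    have l2 := List.length_pos_iff.2 hA
    have s1 : A ++ t <:+ w := List.suffix_of_suffix_length_le ⟨_, e⟩ (List.suffix_cons _ _)
      (by rw [List.length_append]; omega)
    refine Finset.mem_union_right _ (Finset.mem_biUnion.2 ⟨A.length - 1,
      Finset.mem_range.2 (by omega), Finset.mem_image.2 ⟨A ++ t, mem_Fr.2
        ⟨by rw [List.length_append]; omega, a2.sub s1.isInfix, fun x hx => a3 x (s1.subset hx)⟩,
        ?_⟩⟩)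
    rw [Nat.sub_add_cancel l2, List.take_left, e]
  have h2 := Finset.card_le_card h1
  rw [Finset.card_image_of_injective _ fun a b h => by
    simp only [List.cons.injEq, Prod.mk.injEq, and_true] at h
    exact Prod.ext h.1 h.2, Finset.card_product, Finset.card_univ, Fintype.card_fin] at h2
  exact h2.trans ((Finset.card_union_le _ _).trans (Nat.add_le_add_left
    (Finset.card_biUnion_le.trans (Finset.sum_le_sum fun _ _ => Finset.card_image_le)) _))

theorem fr_grow (L : ℕ) : ∀ m ≤ L, ((Fr m).card : ℝ) ≤ (2 / 3) ^ (L - m) * (Fr L).card := by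
  induction L with
  | zero => intro m hm; simp [Nat.le_zero.1 hm]
  | succ L ih =>
    have h0 : (0 : ℝ) ≤ (Fr L).card := Nat.cast_nonneg _
    have h1 : ((Fr L).card : ℝ) ≤ 2 / 3 * (Fr (L + 1)).card := by
      have h2 : (2 : ℝ) * (Fr L).card ≤ (Fr (L + 1)).card +
          ∑ p ∈ Finset.range ((L + 1) / 5), ((Fr (L + 1 - 5 * (p + 1))).card : ℝ) := by
        exact_mod_cast fr_step L
      have h3 : ∑ p ∈ Finset.range ((L + 1) / 5), ((Fr (L + 1 - 5 * (p + 1))).card : ℝ) ≤
          ∑ p ∈ Finset.range ((L + 1) / 5), (1 / 2 : ℝ) ^ p * ((Fr L).card / 4) := by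
        refine Finset.sum_le_sum fun p hp => (ih _ (by omega)).trans ?_
        have := Finset.mem_range.1 hp
        rw [show L - (L + 1 - 5 * (p + 1)) = 5 * p + 4 by omega, pow_add, pow_mul, mul_assoc]
        exact mul_le_mul (pow_le_pow_left₀ (by positivity) (by norm_num) p) (by linarith)
          (by positivity) (by positivity)
      rw [← Finset.sum_mul] at h3
      have h4 := mul_le_mul_of_nonneg_right (sum_geometric_two_le ((L + 1) / 5))
        (show (0 : ℝ) ≤ (Fr L).card / 4 by positivity)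
      linarith
    intro m hm
    rcases hm.eq_or_lt with rfl | hm
    · simp
    · rw [show L + 1 - m = L - m + 1 by omega, pow_succ, mul_assoc]
      exact (ih m (by omega)).trans (mul_le_mul_of_nonneg_left h1 (by positivity))

theorem fr_card (j : ℕ) : 2 ^ j ≤ (Fr (2 * j)).card := by
  have h1 := fr_grow (2 * j) 0 (Nat.zero_le _)
  have h2 : (1 : ℝ) ≤ (Fr 0).card := by
    exact_mod_cast Finset.card_pos.2 ⟨[], mem_Fr.2 ⟨rfl, free_nil (by norm_num), by simp⟩⟩
  have h3 : ((2 / 3 : ℝ) ^ 2) ^ j * 2 ^ j ≤ 1 := by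
    rw [← mul_pow]
    exact pow_le_one₀ (by positivity) (by norm_num)
  rw [Nat.sub_zero, pow_mul] at h1
  exact_mod_cast le_of_mul_le_mul_left (h3.trans (h2.trans h1)) (by positivity)

theorem invRev_sub {X Y : List Lt} (h : X <:+: Y) : invRev X <:+: invRev Y := by
  obtain ⟨a, b, rfl⟩ := h
  exact ⟨invRev b, invRev a, by simp⟩

theorem Free.inv {r : ℕ} {X : List Lt} (h : Free r X) : Free r (invRev X) := fun A hA c => by
  have e : ∀ r, invRev (pw r A) = pw r (invRev A) := fun r => by
    induction r with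
    | zero => simp [pw]
    | succ r ih =>
      rw [pw_add, invRev_append, ih, add_comm, pw_add]
      simp [pw]
  have := invRev_sub c
  rw [invRev_invRev, e] at this
  exact h _ (fun z => hA (by rw [← invRev_invRev (L₁ := A), z, invRev_empty])) this

theorem red_of_sign {X : List Lt} {b : Bool} (h : ∀ x ∈ X, x.2 = b) : IsReduced X :=
  List.Pairwise.isChain (List.pairwise_of_forall_mem_list fun x hx y hy _ =>
    (h x hx).trans (h y hy).symm)

theorem cancel (Q : List Lt) : ∀ P : List Lt, IsReduced P → IsReduced Q → P.length = Q.length →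
    Q ≠ invRev P → ∃ P1 Q1 C, P = P1 ++ C ∧ Q = invRev C ++ Q1 ∧ P1 ≠ [] ∧ Q1 ≠ [] ∧
      IsReduced (P1 ++ Q1) := by
  induction Q with
  | nil => exact fun P _ _ h h' => absurd (by rw [List.length_eq_zero_iff.1 h, invRev_empty]) h'
  | cons y Q ih =>
    intro P hP hQ h h'
    rcases P.eq_nil_or_concat' with rfl | ⟨P, x, rfl⟩
    · simp at h
    by_cases c : x.1 = y.1 → x.2 = y.2
    · exact ⟨_, _, [], (List.append_nil _).symm, rfl, by simp, by simp,
        List.IsChain.append hP hQ (by simpa using c)⟩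
    have e : invRev [x] = [y] := by
      rw [Classical.not_imp] at c
      obtain ⟨x1, x2⟩ := x
      obtain ⟨y1, y2⟩ := y
      cases x2 <;> cases y2 <;> simp_all [invRev]
    obtain ⟨P1, Q1, C, rfl, rfl, a⟩ := ih P (red_sub hP (List.prefix_append _ _).isInfix)
      (red_sub hQ (List.suffix_cons _ _).isInfix) (by simpa using h)
      fun z => h' (by rw [invRev_append, e, z]; rfl)
    exact ⟨P1, Q1, C ++ [x], by simp, by rw [invRev_append, e]; rfl, a⟩

section Blocks

variable {ι : Type} [DecidableEq ι] [Fintype ι] {L : ℕ} (e : ι → List Lt)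

/-- the block of a letter -/
def blk (x : ι × Bool) : List Lt := if x.2 then e x.1 else invRev (e x.1)

/-- short words without high powers -/
def Sm (L : ℕ) (X : List Lt) : Prop := X.length ≤ 3 * L ∧ Free 18 X

variable (he : ∀ i, e i ∈ Fr L) (hL : 0 < L) (hi : Function.Injective e)
include he

theorem blk_len (x : ι × Bool) : (blk e x).length = L := by
  unfold blk
  split_ifs <;> simp [(mem_Fr.1 (he x.1)).1]

theorem blk_free (x : ι × Bool) : Free 6 (blk e x) := by
  unfold blk
  split_ifs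
  exacts [(mem_Fr.1 (he x.1)).2.1, (mem_Fr.1 (he x.1)).2.1.inv]

theorem blk_sign (x : ι × Bool) : ∀ y ∈ blk e x, y.2 = x.2 := by
  obtain ⟨i, b⟩ := x
  have := (mem_Fr.1 (he i)).2.2
  cases b
  · intro y hy
    simp only [blk, invRev, Bool.false_eq_true, if_false, List.mem_reverse, List.mem_map] at hy
    obtain ⟨z, hz, rfl⟩ := hy
    simp [this z hz]
  · exact this

include hL hi

theorem blk_inj : Function.Injective (blk e) := fun x y h => by
  obtain ⟨z, hz⟩ := List.exists_mem_of_length_pos ((blk_len e he x).symm ▸ hL)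
  have a := (blk_sign e he x z hz).symm.trans (blk_sign e he y z (h ▸ hz))
  refine Prod.ext (hi ?_) a
  unfold blk at h
  rw [a] at h
  split_ifs at h
  exacts [h, invRev_injective h]

theorem struct (w : List (ι × Bool)) : ∀ x, IsReduced (x :: w) → ∃ Bs,
    List.Forall₂ (fun x B => blk e x <+: B ∧ Sm L B) (x :: w) Bs ∧
    IsReduced (blk e x ++ Bs.flatten) ∧ mk (blk e x ++ Bs.flatten) =
      FreeGroup.lift (fun i => mk (e i) ^ 3) (mk (x :: w)) := by
  have h1 : ∀ x, FreeGroup.lift (fun i => mk (e i) ^ 3) (EM.lw x) = mk (blk e x) ^ 3 := by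
    rintro ⟨i, b⟩
    cases b
    · simp [EM.lw, blk, ← inv_mk]
    · simp [EM.lw, blk]
  have h2 : ∀ x, IsReduced (blk e x ++ blk e x ++ blk e x) := fun x =>
    red_of_sign (b := x.2) (by
      simp only [List.mem_append, or_self]
      exact blk_sign e he x)
  induction w with
  | nil =>
    refine fun x _ => ⟨[blk e x ++ blk e x], .cons ⟨List.prefix_append _ _, ?_, ?_⟩ .nil, ?_, ?_⟩
    · rw [List.length_append, blk_len e he]
      omega
    · simpa using ((blk_free e he x).append (blk_free e he x)).append (free_nil (r := 6) (by simp))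
    · simpa using h2 x
    · rw [EM.mk_cons, ← one_eq_mk, mul_one, h1]
      simp [← mul_mk, pow_succ, mul_assoc]
  | cons y w ih =>
    intro x hr
    obtain ⟨Bs, a1, a2, a3⟩ := ih y (red_sub hr (List.suffix_cons _ _).isInfix)
    obtain ⟨P, Q, C, b1, b2, b3, b4, b5⟩ := cancel (blk e y) (blk e x)
      (red_of_sign (blk_sign e he x)) (red_of_sign (blk_sign e he y))
      (by rw [blk_len e he, blk_len e he]) fun z => by
        have : y = (x.1, !x.2) := blk_inj e he hL hi (z.trans (by
          obtain ⟨i, b⟩ := x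
          cases b <;> simp [blk]))
        subst this
        simp [FreeGroup.IsReduced] at hr
    have c1 : P <:+: blk e x := (List.IsPrefix.isInfix ⟨C, b1.symm⟩)
    have c2 : Q <:+: blk e y := (List.IsSuffix.isInfix ⟨_, b2.symm⟩)
    refine ⟨(blk e x ++ P ++ Q) :: Bs, .cons ⟨⟨P ++ Q, by simp⟩, ?_, ((blk_free e he x).append
      ((blk_free e he x).sub c1)).append ((blk_free e he y).sub c2)⟩ a1, ?_, ?_⟩
    · have d1 := c1.length_le
      have d2 := c2.length_le
      simp only [List.length_append, blk_len e he] at d1 d2 ⊢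
      omega
    · have d1 : IsReduced (blk e x ++ blk e x ++ P) :=
        red_sub (h2 x) ⟨[], C, by nth_rw 5 [b1]; simp⟩
      have d2 : IsReduced (Q ++ Bs.flatten) := red_sub a2 ⟨invRev C, [], by rw [b2]; simp⟩
      simpa using (d1.append_overlap b5 b3).append_overlap d2 b4
    · rw [EM.mk_cons, _root_.map_mul, h1, ← a3, b2]
      have d : mk (blk e x) = mk P * mk C := by rw [b1, mul_mk]
      simp [← mul_mk, ← inv_mk, pow_succ, mul_assoc, d]

theorem decode {u : List (ι × Bool)} {Cs : List (List Lt)}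
    (h : List.Forall₂ (fun x B => blk e x <+: B ∧ Sm L B) u Cs) : ∀ (u' : List (ι × Bool))
    (Cs' : List (List Lt)) (t t' : List Lt),
    List.Forall₂ (fun x B => blk e x <+: B ∧ Sm L B) u' Cs' →
    Cs.map (fun B => Fin.ofNat (3 * L + 1) B.length) =
      Cs'.map (fun B => Fin.ofNat (3 * L + 1) B.length) →
    Cs.flatten ++ t = Cs'.flatten ++ t' → u = u' := by
  induction h with
  | nil =>
    intro u' Cs' t t' h1 h2 _
    obtain rfl := List.map_eq_nil_iff.1 h2.symm
    exact (List.forall₂_nil_right_iff.1 h1).symm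
  | @cons x B u Cs hx _ ih =>
    intro u' Cs' t t' h1 h2 h3
    cases h1 with
    | nil => simp at h2
    | @cons y B' u' Cs' hy h1 =>
      rw [List.map_cons, List.map_cons, List.cons.injEq] at h2
      have l := congrArg Fin.val h2.1
      rw [Fin.val_ofNat, Fin.val_ofNat, Nat.mod_eq_of_lt (Nat.lt_succ_of_le hx.2.1),
        Nat.mod_eq_of_lt (Nat.lt_succ_of_le hy.2.1)] at l
      simp only [List.flatten_cons, List.append_assoc] at h3
      obtain ⟨rfl, h4⟩ := List.append_inj h3 l
      have := blk_inj e he hL hi ((List.prefix_of_prefix_length_le hx.1 hy.1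
        (by rw [blk_len e he, blk_len e he])).eq_of_length (by rw [blk_len e he, blk_len e he]))
      rw [this, ih _ _ _ _ h1 h2.2 h4]

end Blocks

theorem sparse_of_power {G : Type} [Group G] (hG : PowerRelations G) : SparseDehn G := by
  classical
  obtain ⟨s, hs⟩ := hG
  refine ⟨3 / 8, by norm_num, fun N => ?_⟩
  obtain ⟨i, i0, i1, i2⟩ : ∃ i : ℕ, 0 < i ∧ N ≤ 2 ^ (8 * i) ∧ (i + 1) * (48 * i + 1) ^ 2 ≤ 2 ^ i := by
    refine ⟨3 * (N + 11), by omega, (show N ≤ 8 * (3 * (N + 11)) by omega).trans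
      Nat.lt_two_pow_self.le, ?_⟩
    have a : N < 2 ^ N := Nat.lt_two_pow_self
    have b : 48 * (3 * (N + 11)) + 1 ≤ 2 ^ (N + 11) := by rw [pow_add]; omega
    rw [mul_comm 3, pow_mul, pow_succ' _ 2, mul_comm _ 3]
    exact Nat.mul_le_mul (by omega) (Nat.pow_le_pow_left b 2)
  obtain ⟨f⟩ : Nonempty (Fin (2 ^ (8 * i)) ↪ Fr (2 * (8 * i))) :=
    Function.Embedding.nonempty_of_card_le (by simpa using fr_card (8 * i))
  set L := 2 * (8 * i) with hL
  have L0 : 0 < L := by omega
  set e : Fin (2 ^ (8 * i)) → List Lt := fun k => (f k).1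
  have he : ∀ k, e k ∈ Fr L := fun k => (f k).2
  have hi : Function.Injective e := Subtype.val_injective.comp f.injective
  let P : List (Fin (2 ^ (8 * i)) × Bool) → List Lt × List Lt × List (List Lt) × List Lt → Prop :=
    fun u q => List.Forall₂ (fun x B => blk e x <+: B ∧ Sm L B) u q.2.2.1 ∧ Sm L q.2.1 ∧
      Sm L q.2.2.2 ∧ pw 144 q.1 = q.2.1 ++ (q.2.2.1.flatten ++ q.2.2.2)
  refine ⟨_, i1, fun k => FreeGroup.lift s (mk (e k) ^ 3),
    fun l => (Ls _ l).filter fun u => ∃ q, P u q,
    fun l => ⟨?_, fun u hu => mem_Ls.1 (Finset.mem_filter.1 hu).1⟩, fun w h1 h2 => ?_⟩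
  · rcases l.eq_zero_or_pos with rfl | l0
    · simpa using (Finset.card_filter_le _ _).trans (card_Ls (β := Fin (2 ^ (8 * i)) × Bool) 0)
    have : ∀ u, ∃ q, (∃ q, P u q) → P u q := fun u => by
      by_cases c : ∃ q, P u q
      exacts [c.imp fun q h _ => h, ⟨default, fun h => absurd h c⟩]
    choose q hq using this
    have k1 := Finset.card_le_card_of_injOn (s := (Ls _ l).filter fun u => ∃ q, P u q)
      (t := (Finset.range (i * l + 1)).biUnion (Ls Lt) ×ˢ Ls (Fin (3 * L + 1)) (l + 1))
      (fun u => ((q u).1, ((q u).2.1 :: (q u).2.2.1).map fun B => Fin.ofNat (3 * L + 1) B.length))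
      (fun u hu => by
        obtain ⟨a, b⟩ := Finset.mem_filter.1 hu
        obtain ⟨c1, c2, c3, c4⟩ := hq u b
        have d1 := c1.length_eq.symm.trans (mem_Ls.1 a)
        refine Finset.mem_product.2 ⟨Finset.mem_biUnion.2 ⟨_, Finset.mem_range.2 ?_,
          mem_Ls.2 rfl⟩, mem_Ls.2 (by simp [d1])⟩
        have d2 : (q u).2.2.1.flatten.length ≤ l * (3 * L) := by
          rw [List.length_flatten, ← d1, ← smul_eq_mul, ← List.length_map List.length]
          refine List.sum_le_card_nsmul _ _ fun x hx => ?_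
          obtain ⟨B, hB, rfl⟩ := List.mem_map.1 hx
          obtain ⟨j, hj, rfl⟩ := List.getElem_of_mem hB
          exact (c1.get (c1.length_eq ▸ hj) hj).2.1
        have d3 := congrArg List.length c4
        have d4 := c2.1
        have d5 := c3.1
        simp only [length_pw, List.length_append] at d3
        change (q u).1.length < _
        nlinarith)
      (fun u hu u' hu' h => by
        obtain ⟨c1, c2, -, c4⟩ := hq u (Finset.mem_filter.1 hu).2
        obtain ⟨d1, d2, -, d4⟩ := hq u' (Finset.mem_filter.1 hu').2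
        simp only [Prod.mk.injEq, List.map_cons, List.cons.injEq] at h
        have l := congrArg Fin.val h.2.1
        rw [Fin.val_ofNat, Fin.val_ofNat, Nat.mod_eq_of_lt (Nat.lt_succ_of_le c2.1),
          Nat.mod_eq_of_lt (Nat.lt_succ_of_le d2.1)] at l
        rw [h.1, d4] at c4
        exact decode e he L0 hi c1 _ _ _ _ d1 h.2.2 (List.append_inj c4.symm l).2)
    have k2 : ((Finset.range (i * l + 1)).biUnion (Ls Lt)).card ≤ (i * l + 1) * 4 ^ (i * l) := by
      refine Finset.card_biUnion_le.trans ((Finset.sum_le_card_nsmul _ _ _ fun m hm =>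
        (card_Ls m).trans ?_).trans (by rw [Finset.card_range, smul_eq_mul]))
      exact Nat.pow_le_pow_right (by norm_num) (Nat.lt_succ_iff.1 (Finset.mem_range.1 hm))
    have k3 : (Ls (Fin (3 * L + 1)) (l + 1)).card ≤ (48 * i + 1) ^ (l + 1) :=
      (card_Ls _).trans (by rw [Fintype.card_fin, show 3 * L + 1 = 48 * i + 1 by omega])
    have k4 : i * l + 1 ≤ (i + 1) ^ l := by
      have := one_add_mul_le_pow (a := (i : ℤ)) (by omega) l
      rw [add_comm, add_comm 1, mul_comm] at this
      exact_mod_cast this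
    have k5 : (i * l + 1) * 4 ^ (i * l) * (48 * i + 1) ^ (l + 1) ≤ 2 ^ (3 * (i * l)) := by
      calc _ ≤ (i + 1) ^ l * 4 ^ (i * l) * (48 * i + 1) ^ (2 * l) := by gcongr <;> omega
        _ = ((i + 1) * (48 * i + 1) ^ 2) ^ l * 4 ^ (i * l) := by rw [mul_pow, pow_mul _ 2]; ring
        _ ≤ (2 ^ i) ^ l * 4 ^ (i * l) := by gcongr
        _ = _ := by rw [← pow_mul, ← mul_pow, pow_mul 2 3]; rfl
    rw [Finset.card_product] at k1
    refine (Nat.cast_le.2 (k1.trans ((Nat.mul_le_mul k2 k3).trans k5))).trans ?_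
    push_cast
    rw [← pow_succ', ← Real.rpow_natCast, ← Real.rpow_natCast, ← Real.rpow_mul zero_le_two]
    refine Real.rpow_le_rpow_of_exponent_le one_le_two ?_
    push_cast
    nlinarith [(Nat.cast_nonneg l : (0 : ℝ) ≤ l)]
  · obtain ⟨x, w', hw⟩ := List.exists_cons_of_ne_nil fun z => h1 (toWord_eq_nil_iff.1 z)
    obtain ⟨Bs, a1, a2, a3⟩ := struct e he L0 hi w' x (hw ▸ isReduced_toWord)
    rw [← hw, mk_toWord] at a3
    obtain ⟨A, b1, b2⟩ := hs _ (mk_ne_one a2 fun z => L0.ne' (by
      rw [← blk_len e he x, (List.append_eq_nil_iff.1 z).1, List.length_nil])) (by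
      rw [a3, ← h2]
      exact DFunLike.congr_fun (FreeGroup.ext_hom ((FreeGroup.lift s).comp _) _ (by simp)) w)
    rw [toWord_mk, a2.reduce_eq] at b2
    obtain ⟨a, u, Cs, t, c1, c2, c3, c4, c5⟩ := inf (Sm := Sm L)
      (fun X Y h h' => ⟨h'.length_le.trans h.1, h.2.sub h'⟩) ⟨by simp, free_nil (by simp)⟩
      (fun _ _ h => h.2) a1 _ _ ⟨by rw [blk_len e he]; omega, by
        simpa using (blk_free e he x).append (free_nil (r := 12) (by simp))⟩ b2
    refine ⟨u.length, List.length_pos_iff.2 ?_, u, Finset.mem_filter.2 ⟨mem_Ls.2 rfl,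
      (A, a, Cs, t), c2, c3, c4, c5⟩, hw ▸ c1⟩
    rintro rfl
    obtain rfl := List.forall₂_nil_left_iff.1 c2
    refine c3.2.append c4.2 A b1 (List.IsPrefix.isInfix ⟨pw 108 A, ?_⟩)
    rw [← pw_add]
    exact c5

end Pool.Agent.P.MP_95bcfc_an.Dehn
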