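import Pool.Agent.P.MP_95bcfc_an.Stmt

set_option autoImplicit false

namespace Pool.Agent.P.MP_95bcfc_an

/-- For some `θ < 1/2` and arbitrarily large `n` there are `n` elements of `G` and sets `W l` of at
most `(2n)^(θ l)` words of length `l` in these elements and their inverses such that every
non-trivial reduced word that equals `1` in `G` has a non-empty subword in some `W l`. -/
def SparseDehn (G : Type) [Group G] : Prop :=
  ∃ θ : ℝ, θ < 1 / 2 ∧ ∀ N : ℕ, ∃ n, N ≤ n ∧ ∃ (s : Fin n → G)
    (W : ℕ → Finset (List (Fin n × Bool))),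
    (∀ l, ((W l).card : ℝ) ≤ (2 * n : ℝ) ^ (θ * l) ∧ ∀ u ∈ W l, u.length = l) ∧
    ∀ w : FreeGroup (Fin n), w ≠ 1 → FreeGroup.lift s w = 1 →
      ∃ l, 0 < l ∧ ∃ u ∈ W l, u <:+: w.toWord

/-- There are two elements of `G` such that every non-trivial reduced word in them that equals `1`
in `G` has a subword that is the 144-th power of a non-empty word. -/
def PowerRelations (G : Type) [Group G] : Prop :=
  ∃ s : Fin 2 → G, ∀ w : FreeGroup (Fin 2), w ≠ 1 → FreeGroup.lift s w = 1 →
    ∃ u, u ≠ [] ∧ (List.replicate 144 u).flatten <:+: w.toWord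

end Pool.Agent.P.MP_95bcfc_an
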